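import Mathlib

/-!
# The volume gap for toric Fano varieties: definitions
-/

set_option autoImplicit false

open MeasureTheory Finset

namespace Pool.Agent.L5helper31.TG

/-- The pairing of an integral vector with a real vector. -/
def dot {n : ℕ} (l : Fin n → ℤ) (x : Fin n → ℝ) : ℝ := ∑ i, (l i : ℝ) * x i

/-- The polytope of all `x` with `⟨l, x⟩ ≥ -1` for the `l ∈ L`. -/
def polytope {n : ℕ} (L : Finset (Fin n → ℤ)) : Set (Fin n → ℝ) := {x | ∀ l ∈ L, -1 ≤ dot l x}

/-- The volume of the product of the simplices `x ≥ 0`, `∑ x ≤ m + 1` in dimension `m` and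
`w ≥ 0`, `∑ w ≤ z + 1` in dimension `z`. -/
noncomputable def bd (m z : ℕ) : ℝ := ((m + 1 : ℝ) ^ m / m.factorial) * ((z + 1 : ℝ) ^ z / z.factorial)

/-- The vectors for the product of the projective line and the projective space of dimension `n`. -/
def exL (n : ℕ) : Finset (Fin (n + 1) → ℤ) :=
  {Pi.single 0 1, -Pi.single 0 1, -∑ i : Fin n, Pi.single i.succ 1} ∪
    univ.image (fun i : Fin n => (Pi.single i.succ 1 : Fin (n + 1) → ℤ))

end Pool.Agent.L5helper31.TG
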