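import Pool.Agent.L5helper31.TG.Defs

/-!
# The volume gap for toric Fano varieties: the fans of `P^n` and of `P^1 × P^(n-1)`
-/

set_option autoImplicit false

open MeasureTheory Finset

namespace Pool.Agent.L5helper31.TG

/-- The rays of the fan of `P^n`: a basis `M` and the negative of its sum. -/
def pnL {n : ℕ} (M : Fin n → (Fin n → ℤ)) : Finset (Fin n → ℤ) :=
  insert (-∑ i, M i) (univ.image M)

/-- The rays of the fan of `P^1 × P^(n-1)`: a basis `M`, the negative of `M j`, and the negative of the
sum of the others. -/
def prodL {n : ℕ} (M : Fin n → (Fin n → ℤ)) (j : Fin n) : Finset (Fin n → ℤ) :=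
  insert (-M j) (insert (-∑ i ∈ univ.erase j, M i) (univ.image M))

end Pool.Agent.L5helper31.TG
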