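import Pool.Agent.L5helper24.TGBath
import Pool.Agent.L5helper50.TGChange
import Pool.Agent.L5helper71.TGCircuit
import Pool.Agent.L5helper82.TGAlternative
import Pool.Agent.L5helper25.TG.BdLe
import Pool.Agent.L5helper37.TGNum
import Pool.Agent.L5helper76.TGExVol
import Pool.Agent.L5helper26.TG.Bary
import Pool.Agent.L5helper49.TGBathEq

/-!
# The volume gap for toric Fano varieties: the main theorem
-/

set_option autoImplicit false

open MeasureTheory Finset

namespace Pool.Agent.L5helper31.TG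

lemma dot_neg_sum {n : ℕ} (M : Fin n → (Fin n → ℤ)) (J : Finset (Fin n)) (x : Fin n → ℝ) :
    dot (-∑ i ∈ J, M i) x = -∑ i ∈ J, dot (M i) x := by
  unfold dot
  simp only [Pi.neg_apply, Finset.sum_apply, Int.cast_neg, Int.cast_sum, neg_mul,
    Finset.sum_neg_distrib, Finset.sum_mul]
  rw [Finset.sum_comm]

lemma m_dot_sum {n : ℕ} (M : Fin n → (Fin n → ℤ)) (J : Finset (Fin n)) (x : Fin n → ℝ) :
    dot (∑ i ∈ J, M i) x = ∑ i ∈ J, dot (M i) x := by
  unfold dot
  simp only [Finset.sum_apply, Int.cast_sum, Finset.sum_mul]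
  rw [Finset.sum_comm]

lemma m_dot_neg {n : ℕ} (l : Fin n → ℤ) (x : Fin n → ℝ) : dot (-l) x = -dot l x := by
  unfold dot
  simp

lemma dot_comb {n : ℕ} (l : Fin n → ℤ) (x y : Fin n → ℝ) (a b : ℝ) :
    dot l (a • x + b • y) = a * dot l x + b * dot l y := by
  unfold dot
  rw [Finset.mul_sum, Finset.mul_sum, ← Finset.sum_add_distrib]
  refine Finset.sum_congr rfl fun i _ => ?_
  simp only [Pi.add_apply, Pi.smul_apply, smul_eq_mul]
  ring

lemma dot_cont {n : ℕ} (l : Fin n → ℤ) : Continuous (dot l) := by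
  unfold dot
  fun_prop

lemma polytope_closed {n : ℕ} (L : Finset (Fin n → ℤ)) : IsClosed (polytope L) := by
  have : polytope L = ⋂ l ∈ L, {x | -1 ≤ dot l x} := by
    ext x
    simp [polytope]
  rw [this]
  exact isClosed_biInter fun l _ => isClosed_le continuous_const (dot_cont l)

lemma polytope_convex {n : ℕ} (L : Finset (Fin n → ℤ)) : Convex ℝ (polytope L) := by
  intro x hx y hy a b ha hb hab l hl
  rw [dot_comb]
  have h1 := mul_le_mul_of_nonneg_left (hx l hl) ha
  have h2 := mul_le_mul_of_nonneg_left (hy l hl) hb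
  nlinarith

/-- `(⟨M i, x⟩ + 1)_i` -/
def ymap {n : ℕ} (M : Fin n → (Fin n → ℤ)) (x : Fin n → ℝ) : Fin n → ℝ := fun i => dot (M i) x + 1

lemma ymap_inj {n : ℕ} (M : Fin n → (Fin n → ℤ)) (hd : (Matrix.of M).det ≠ 0) :
    Function.Injective (ymap M) := by
  intro x x' h
  set A : Matrix (Fin n) (Fin n) ℝ := (Matrix.of M).map (fun a : ℤ => (a : ℝ)) with hA
  have hdet : A.det ≠ 0 := by
    have h1 : A.det = (((Matrix.of M).det : ℤ) : ℝ) := by
      have := (RingHom.map_det (Int.castRingHom ℝ) (Matrix.of M)).symm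
      simpa [hA, RingHom.mapMatrix_apply] using this
    rw [h1]
    exact_mod_cast hd
  have h2 : A.mulVec x = A.mulVec x' := by
    funext i
    have h3 := congrFun h i
    unfold ymap dot at h3
    simp only [Matrix.mulVec, dotProduct, hA, Matrix.map_apply, Matrix.of_apply]
    linarith
  have h4 := congrArg (fun v => A⁻¹.mulVec v) h2
  simp only [Matrix.mulVec_mulVec] at h4
  rwa [Matrix.nonsing_inv_mul A (isUnit_iff_ne_zero.2 hdet), Matrix.one_mulVec,
    Matrix.one_mulVec] at h4

lemma ymap_sum {n : ℕ} (M : Fin n → (Fin n → ℤ)) (x : Fin n → ℝ) (J : Finset (Fin n)) :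
    ∑ i ∈ J, ymap M x i = ∑ i ∈ J, dot (M i) x + J.card := by
  unfold ymap
  rw [Finset.sum_add_distrib]
  simp

section key

variable {n : ℕ} (L : Finset (Fin n → ℤ)) (hb : Bornology.IsBounded (polytope L))
    (hc : ∀ i, ∫ x in polytope L, x i = 0) (M : Fin n → (Fin n → ℤ)) (hM : ∀ i, M i ∈ L)
    (hd : (Matrix.of M).det ≠ 0) (J : Finset (Fin n)) (hJ : J = ∅ ∨ -∑ i ∈ J, M i ∈ L)

include hM in
lemma y_nonneg {x : Fin n → ℝ} (hx : x ∈ polytope L) (i : Fin n) : 0 ≤ ymap M x i := by
  have := hx (M i) (hM i)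
  unfold ymap
  linarith

include hJ in
lemma y_sum {x : Fin n → ℝ} (hx : x ∈ polytope L) : ∑ i ∈ J, ymap M x i ≤ J.card + 1 := by
  rcases hJ with rfl | hJ
  · simp
  · have h1 := hx _ hJ
    rw [dot_neg_sum] at h1
    rw [ymap_sum]
    linarith

include hb hc hM hd hJ in
theorem key : |((Matrix.of M).det : ℝ)| * volume.real (polytope L) ≤ bd J.card Jᶜ.card := by
  obtain ⟨K, hKm, hKb, hKi, hKv, hKc⟩ := change L hb hc M hd
  rw [← hKv]
  refine bath J K hKm hKb ?_ ?_ hKc
  · intro y hy i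
    obtain ⟨x, hx, hxy⟩ := (hKi y).1 hy
    rw [hxy i]
    exact y_nonneg L M hM hx i
  · intro y hy
    obtain ⟨x, hx, hxy⟩ := (hKi y).1 hy
    have : y = ymap M x := funext hxy
    rw [this]
    exact y_sum L M J hJ hx

include hb hc hM hd hJ in
theorem key_eq (he : bd J.card Jᶜ.card ≤ |((Matrix.of M).det : ℝ)| * volume.real (polytope L)) :
    polytope L = {x : Fin n → ℝ | (∀ i, -1 ≤ dot (M i) x) ∧ ∑ i ∈ J, dot (M i) x ≤ 1 ∧
      ∑ i ∈ Jᶜ, dot (M i) x ≤ 1} := by
  obtain ⟨K, hKm, hKb, hKi, hKv, hKc⟩ := change L hb hc M hd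
  have himg : K = ymap M '' polytope L := by
    ext y
    rw [hKi]
    constructor
    · rintro ⟨x, hx, hxy⟩
      exact ⟨x, hx, (funext hxy).symm⟩
    · rintro ⟨x, hx, rfl⟩
      exact ⟨x, hx, fun i => rfl⟩
  have hcomp : IsCompact (polytope L) := Metric.isCompact_of_isClosed_isBounded (polytope_closed L) hb
  have hycont : Continuous (ymap M) := by
    refine continuous_pi fun i => ?_
    exact (dot_cont (M i)).add continuous_const
  have hKcl : IsClosed K := by
    rw [himg]
    exact (hcomp.image hycont).isClosed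
  have hKcv : Convex ℝ K := by
    rw [himg]
    rintro _ ⟨x, hx, rfl⟩ _ ⟨x', hx', rfl⟩ a b ha hb' hab
    refine ⟨a • x + b • x', polytope_convex L hx hx' ha hb' hab, ?_⟩
    funext i
    unfold ymap
    rw [dot_comb]
    simp only [Pi.add_apply, Pi.smul_apply, smul_eq_mul]
    linear_combination -hab
  have hKeq := bath_eq J K hKcl hKcv hKb
    (by
      intro y hy i
      obtain ⟨x, hx, hxy⟩ := (hKi y).1 hy
      rw [hxy i]
      exact y_nonneg L M hM hx i)
    (by
      intro y hy
      obtain ⟨x, hx, hxy⟩ := (hKi y).1 hy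
      have : y = ymap M x := funext hxy
      rw [this]
      exact y_sum L M J hJ hx) hKc (by rw [hKv]; exact he)
  ext x
  have h1 : x ∈ polytope L ↔ ymap M x ∈ K := by
    rw [himg]
    constructor
    · exact fun hx => ⟨x, hx, rfl⟩
    · rintro ⟨x', hx', h⟩
      rwa [← ymap_inj M hd h]
  rw [h1, hKeq]
  simp only [Set.mem_ofPred_eq]
  rw [ymap_sum, ymap_sum]
  constructor
  · rintro ⟨a, b, c⟩
    refine ⟨fun i => ?_, by linarith, by linarith⟩
    have := a i
    unfold ymap at this
    linarith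
  · rintro ⟨a, b, c⟩
    refine ⟨fun i => ?_, by linarith, by linarith⟩
    have := a i
    unfold ymap
    linarith

end key

/-- The polytope of `P^1 × P^(n-1)`. -/
lemma polytope_prod {n : ℕ} (M : Fin n → (Fin n → ℤ)) (j : Fin n) :
    polytope (insert (-M j) (insert (-∑ i ∈ univ.erase j, M i) (univ.image M))) =
      {x : Fin n → ℝ | (∀ i, -1 ≤ dot (M i) x) ∧ dot (M j) x ≤ 1 ∧
        ∑ i ∈ univ.erase j, dot (M i) x ≤ 1} := by
  ext x
  simp only [polytope, Set.mem_ofPred_eq, Finset.mem_insert, Finset.mem_image, Finset.mem_univ,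
    true_and, forall_eq_or_imp, forall_exists_index, forall_apply_eq_imp_iff, m_dot_neg,
    m_dot_sum]
  constructor
  · rintro ⟨a, b, c⟩
    exact ⟨c, by linarith, by linarith⟩
  · rintro ⟨c, a, b⟩
    exact ⟨by linarith, by linarith, c⟩

theorem main (n : ℕ) (hn : 2 ≤ n) (L : Finset (Fin n → ℤ)) (h0 : (0 : Fin n → ℤ) ∉ L)
    (hb : Bornology.IsBounded (polytope L)) (hc : ∀ i, ∫ x in polytope L, x i = 0) :
    (n.factorial : ℝ) * volume.real (polytope L) < 2 * (n : ℝ) ^ n ∨
    (∃ (M : Fin n → (Fin n → ℤ)) (j : Fin n), |(Matrix.of M).det| = 1 ∧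
      polytope L = polytope (insert (-M j) (insert (-∑ i ∈ univ.erase j, M i) (univ.image M))) ∧
      (n.factorial : ℝ) * volume.real (polytope L) = 2 * (n : ℝ) ^ n) ∨
    (∃ M : Fin n → (Fin n → ℤ), |(Matrix.of M).det| = 1 ∧
      L = insert (-∑ i, M i) (univ.image M)) := by
  by_cases hlt : (n.factorial : ℝ) * volume.real (polytope L) < 2 * (n : ℝ) ^ n
  · exact Or.inl hlt
  have hge : 2 * (n : ℝ) ^ n ≤ (n.factorial : ℝ) * volume.real (polytope L) := not_lt.1 hlt
  refine Or.inr ?_
  have hf : (0 : ℝ) < n.factorial := by exact_mod_cast n.factorial_pos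
  have hV : 0 ≤ volume.real (polytope L) := measureReal_nonneg
  by_cases hu : ∀ M : Fin n → (Fin n → ℤ), (∀ i, M i ∈ L) → |(Matrix.of M).det| ≤ 1
  swap
  · exfalso
    push Not at hu
    obtain ⟨M, hM, hd⟩ := hu
    have hd0 : (Matrix.of M).det ≠ 0 := by
      intro h
      rw [h] at hd
      norm_num at hd
    have h1 := key L hb hc M hM hd0 ∅ (Or.inl rfl)
    simp only [Finset.card_empty, Finset.compl_empty, Finset.card_univ, Fintype.card_fin] at h1
    have h2 : (2 : ℝ) ≤ |((Matrix.of M).det : ℝ)| := by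
      have : (2 : ℤ) ≤ |(Matrix.of M).det| := by omega
      have h3 : ((2 : ℤ) : ℝ) ≤ ((|(Matrix.of M).det| : ℤ) : ℝ) := by exact_mod_cast this
      simpa using h3
    have h3 : 2 * volume.real (polytope L) ≤ bd 0 n :=
      (mul_le_mul_of_nonneg_right h2 hV).trans h1
    have h4 := bd_zero_lt (n := n) (by omega)
    have h5 := mul_le_mul_of_nonneg_left h3 hf.le
    nlinarith
  have step : ∀ M : Fin n → (Fin n → ℤ), (∀ i, M i ∈ L) → (Matrix.of M).det ≠ 0 →
      ∀ J : Finset (Fin n), J.Nonempty → J ≠ univ → -∑ i ∈ J, M i ∈ L →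
      (∃ (M : Fin n → (Fin n → ℤ)) (j : Fin n), |(Matrix.of M).det| = 1 ∧
      polytope L = polytope (insert (-M j) (insert (-∑ i ∈ univ.erase j, M i) (univ.image M))) ∧
      (n.factorial : ℝ) * volume.real (polytope L) = 2 * (n : ℝ) ^ n) := by
    intro M hM hd J hJ1 hJ2 hJ3
    have hdet : |(Matrix.of M).det| = 1 :=
      le_antisymm (hu M hM) (Int.one_le_abs hd)
    have hdetR : |((Matrix.of M).det : ℝ)| = 1 := by
      rw [← Int.cast_abs, hdet]
      norm_num
    have hcard1 : 1 ≤ J.card := hJ1.card_pos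
    have hcard2 : J.card < n := by
      have h := lt_of_le_of_ne (Finset.card_le_univ J)
        (fun h => hJ2 ((Finset.card_eq_iff_eq_univ J).1 h))
      rwa [Fintype.card_fin] at h
    have hcc : Jᶜ.card = n - J.card := by
      rw [Finset.card_compl, Fintype.card_fin]
    have h1 := key L hb hc M hM hd J (Or.inr hJ3)
    rw [hdetR, one_mul, hcc] at h1
    have h2 := bd_le hcard1 (Nat.succ_le_of_lt hcard2)
    have h3 := mul_le_mul_of_nonneg_left h1 hf.le
    have h4 : bd J.card (n - J.card) ≤ volume.real (polytope L) := by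
      have : (n.factorial : ℝ) * bd J.card (n - J.card) ≤
          (n.factorial : ℝ) * volume.real (polytope L) := h2.trans hge
      exact le_of_mul_le_mul_left this hf
    have h5 := key_eq L hb hc M hM hd J (Or.inr hJ3) (by rw [hdetR, one_mul, hcc]; exact h4)
    have h6 : J.card = 1 ∨ J.card = n - 1 := by
      by_contra h
      push Not at h
      have h7 := bd_lt (n := n) (m := J.card) (by omega) (by omega)
      linarith
    have h7 : (n.factorial : ℝ) * volume.real (polytope L) = 2 * (n : ℝ) ^ n :=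
      le_antisymm (h3.trans h2) hge
    rcases h6 with h6 | h6
    · obtain ⟨j, rfl⟩ := Finset.card_eq_one.1 h6
      refine ⟨M, j, hdet, ?_, h7⟩
      rw [h5, polytope_prod]
      have : ({j} : Finset (Fin n))ᶜ = univ.erase j := by
        ext i
        simp
      rw [this]
      simp
    · have h8 : Jᶜ.card = 1 := by omega
      obtain ⟨j, hj⟩ := Finset.card_eq_one.1 h8
      refine ⟨M, j, hdet, ?_, h7⟩
      rw [h5, polytope_prod, hj]
      have : J = univ.erase j := by
        rw [← compl_compl J, hj]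
        ext i
        simp
      rw [this]
      ext x
      simp only [Set.mem_ofPred_eq, Finset.sum_singleton]
      tauto
  obtain ⟨M, hM, hd, J, hJ1, hJ3⟩ := circuit (by omega) L hb h0 hu
  by_cases hJ2 : J = univ
  · subst hJ2
    by_cases hL : L = insert (-∑ i, M i) (univ.image M)
    · exact Or.inr ⟨M, le_antisymm (hu M hM) (Int.one_le_abs hd), hL⟩
    · obtain ⟨M', hM', hd', J', a, b, c⟩ := alternative hn L hu h0 M hM hd hJ3 hL
      exact Or.inl (step M' hM' hd' J' a b c)
  · exact Or.inl (step M hM hd J hJ1 hJ2 hJ3)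

end Pool.Agent.L5helper31.TG
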